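import Pool.Agent.Q221.WeakReset.Red

set_option autoImplicit false

/-!
# The weakly reset property of Mealy automata is undecidable

A fixed Turing machine with undecidable halting problem is simulated. The alphabet of the automaton
has a letter `r` that sends every state to an idle state (the identity map), so that the reset words
are the words containing `r`; in the *killing* states the letter `r` is overwritten. One pass of the
automaton over a word (started in a suitable mode) writes the initial configuration of the machine,
or performs one step of the machine while shifting the configuration by two cells to the right. A
pass ends in a killing state if the head of the machine is about to leave the word. The automaton is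
weakly reset iff some word cannot be killed, iff the machine halts.

The definitions of Mealy automata, reset words and the weakly reset property are in
`Pool.Agent.Q221.WeakReset.Def`, the coding of automata by finite tables (`Code`, `aut`) is in
`Pool.Agent.Q221.WeakReset.Red`.
-/

namespace Pool.Agent.Results.MP_5b5905_lc.WeaklyResetUndecidable

open Pool.Agent.Q221.WeakReset

/-- Every Mealy automaton (with states `0, …, n` and letters `0, …, m`) has a code by finite tables,
and the set of codes of weakly reset automata is not computable. -/
theorem result :
    (∀ (n m : ℕ) (M : Mealy (Fin (n + 1)) (Fin (m + 1))), ∃ s t : List ℕ, aut (n, m, s, t) = M) ∧
      ¬ ComputablePred fun c : Code => (aut c).WeaklyReset :=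
  ⟨exists_code, undecidable⟩

end Pool.Agent.Results.MP_5b5905_lc.WeaklyResetUndecidable
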